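import Pool.Agent.Work.MP_d4a4cd_co_h99.Chain

/-!
# Continuations with at most one unlucky step
-/

set_option autoImplicit false

namespace Pool.Agent.LuckyStirling

/-- Lucky continuations. -/
def B : ℕ → ℕ → ℕ
  | 0, _ => 1
  | t + 1, z => ∑ g ∈ Finset.range (z + 1), B t (g + 1)

/-- Continuations with one unlucky step, from a state with `z` leading zeros, then a one, then
exactly `c` zeros, of length `2 * m`. -/
def e : ℕ → ℕ → ℕ → ℕ → ℚ
  | 0, _, _, _ => 0
  | t + 1, m, z, c => ∑ g ∈ Finset.range (z + 1), e t (m + 1) (g + 1) (z - g) +
      ∑ i ∈ Finset.range c, (B t (z + 1 + i) : ℚ) + (2 * m - z - c) * (B t (z + 1 + c) : ℚ)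

/-- The word is empty or starts with a one. -/
def Hd (w : List Bool) : Prop := w = [] ∨ ∃ w', w = true :: w'

lemma ftf_rep (z : ℕ) (r : List Bool) :
    ftf (List.replicate z false ++ true :: r) = List.replicate (z + 1) false ++ r := by
  induction z with
  | zero => rfl
  | succ z ih =>
    rw [List.replicate_succ, List.cons_append, ftf, ih, List.replicate_succ (n := z + 1),
      List.cons_append]

lemma step_lucky (z g : ℕ) (w : List Bool) (hg : g ≤ z) :
    step (List.replicate z false ++ w) g =
      List.replicate (g + 1) false ++ true :: (List.replicate (z - g) false ++ w) := by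
  unfold step
  have h1 : List.replicate z false = List.replicate g false ++ List.replicate (z - g) false := by
    rw [List.replicate_append_replicate]; congr 1; omega
  rw [h1, List.append_assoc, List.take_left' (List.length_replicate),
    List.drop_left' (List.length_replicate), ftf_rep]

lemma take_rep (z g : ℕ) (w : List Bool) (hg : g ≤ z) :
    ¬ true ∈ (List.replicate z false ++ w).take g := by
  rw [List.take_append_of_le_length (by rw [List.length_replicate]; exact hg), List.take_replicate]
  simp

lemma step_unlucky (z h : ℕ) (v : List Bool) :
    step (List.replicate z false ++ true :: v) (z + 1 + h) =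
      List.replicate (z + 1) false ++ (v.take h ++ true :: true :: v.drop h) := by
  unfold step
  have h1 : (List.replicate z false ++ true :: v).take (z + 1 + h) =
      List.replicate z false ++ true :: v.take h := by
    rw [List.take_append, List.length_replicate, List.take_of_length_le (by
      rw [List.length_replicate]; omega)]
    have : z + 1 + h - z = h + 1 := by omega
    rw [this, List.take_succ_cons]
  have h2 : (List.replicate z false ++ true :: v).drop (z + 1 + h) = v.drop h := by
    rw [List.drop_append, List.length_replicate, List.drop_eq_nil_of_le (by
      rw [List.length_replicate]; omega)]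
    have : z + 1 + h - z = h + 1 := by omega
    rw [this, List.drop_succ_cons, List.nil_append]
  rw [h1, h2, List.append_assoc, List.cons_append, ftf_rep]

lemma take_unlucky (z h : ℕ) (v : List Bool) :
    true ∈ (List.replicate z false ++ true :: v).take (z + 1 + h) := by
  rw [List.take_append, List.length_replicate]
  have : z + 1 + h - z = h + 1 := by omega
  rw [this, List.take_succ_cons]
  simp

lemma sum_split {z : ℕ} {w : List Bool} (hw : Hd w) (F : ℕ → ℕ) :
    ∑ g ∈ Finset.range ((List.replicate z false ++ w).length + 1),
      (if true ∈ (List.replicate z false ++ w).take g then 0 else F g) =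
      ∑ g ∈ Finset.range (z + 1), F g := by
  rw [List.length_append, List.length_replicate]
  have h1 : z + w.length + 1 = (z + 1) + w.length := by ring
  rw [h1, Finset.sum_range_add]
  have h2 : ∑ g ∈ Finset.range w.length,
      (if true ∈ (List.replicate z false ++ w).take (z + 1 + g) then 0 else F (z + 1 + g)) = 0 := by
    rcases hw with rfl | ⟨w', rfl⟩
    · simp
    · apply Finset.sum_eq_zero
      intro g _
      rw [if_pos (take_unlucky z g w')]
  rw [h2, add_zero]
  apply Finset.sum_congr rfl
  intro g hg
  have := Finset.mem_range.1 hg
  rw [if_neg (take_rep z g w (by omega))]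

lemma T_zero (t z : ℕ) (w : List Bool) (hw : Hd w) :
    T t (List.replicate z false ++ w) 0 = B t z := by
  induction t generalizing z w with
  | zero => rfl
  | succ t ih =>
    rw [T, B]
    simp only [if_true]
    rw [sum_split hw]
    apply Finset.sum_congr rfl
    intro g hg
    have := Finset.mem_range.1 hg
    rw [step_lucky z g w (by omega)]
    exact ih _ _ (Or.inr ⟨_, rfl⟩)

lemma Hd.take {w : List Bool} (hw : Hd w) (j : ℕ) (r : List Bool) :
    Hd (w.take j ++ true :: r) := by
  rcases hw with rfl | ⟨w', rfl⟩
  · exact Or.inr ⟨r, by simp⟩
  · cases j with
    | zero => exact Or.inr ⟨r, by simp⟩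
    | succ j => exact Or.inr ⟨w'.take j ++ true :: r, by simp⟩

lemma T_step (t z c h : ℕ) (w : List Bool) (hw : Hd w) :
    T t (step (List.replicate z false ++ true :: (List.replicate c false ++ w)) (z + 1 + h)) 0 =
      B t (z + 1 + min h c) := by
  rw [step_unlucky]
  by_cases hc : h ≤ c
  · have h1 : (List.replicate c false ++ w).take h = List.replicate h false := by
      rw [List.take_append_of_le_length (by rw [List.length_replicate]; exact hc),
        List.take_replicate, min_eq_left hc]
    rw [h1, ← List.append_assoc, List.replicate_append_replicate, min_eq_left hc]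
    exact T_zero _ _ _ (Or.inr ⟨_, rfl⟩)
  · have h1 : (List.replicate c false ++ w).take h = List.replicate c false ++ w.take (h - c) := by
      rw [List.take_append, List.length_replicate, List.take_of_length_le (by
        rw [List.length_replicate]; omega)]
    rw [h1, List.append_assoc, ← List.append_assoc, List.replicate_append_replicate,
      min_eq_right (by omega)]
    exact T_zero _ _ _ (hw.take _ _)

lemma sum_min (c L : ℕ) (F : ℕ → ℕ) :
    ∑ h ∈ Finset.range (c + L), F (min h c) = ∑ i ∈ Finset.range c, F i + L * F c := by
  rw [Finset.sum_range_add]
  congr 1
  · apply Finset.sum_congr rfl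
    intro i hi
    rw [min_eq_left (Finset.mem_range.1 hi).le]
  · rw [Finset.sum_congr rfl (g := fun _ => F c) (fun i _ => by rw [min_eq_right (by omega)])]
    simp

lemma T_one (t m z c : ℕ) (w : List Bool) (hw : Hd w) (hl : z + 1 + c + w.length = 2 * m) :
    (T t (List.replicate z false ++ true :: (List.replicate c false ++ w)) 1 : ℚ) = e t m z c := by
  induction t generalizing m z c w with
  | zero => simp [T, e]
  | succ t ih =>
    rw [T, e]
    have hlen : (List.replicate z false ++ true :: (List.replicate c false ++ w)).length + 1 =
        (z + 1) + (c + (w.length + 1)) := by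
      simp only [List.length_append, List.length_replicate, List.length_cons]
      ring
    rw [hlen, Finset.sum_range_add]
    have h1 : ∀ g ∈ Finset.range (z + 1),
        (if true ∈ (List.replicate z false ++ true :: (List.replicate c false ++ w)).take g then
          (if (1 : ℕ) = 0 then 0 else T t (step (List.replicate z false ++
            true :: (List.replicate c false ++ w)) g) (1 - 1))
          else T t (step (List.replicate z false ++ true :: (List.replicate c false ++ w)) g) 1) =
        T t (List.replicate (g + 1) false ++ true :: (List.replicate (z - g) false ++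
          true :: (List.replicate c false ++ w))) 1 := by
      intro g hg
      have := Finset.mem_range.1 hg
      rw [if_neg (take_rep z g _ (by omega)), step_lucky z g _ (by omega)]
    rw [Finset.sum_congr rfl h1]
    have h2 : ∀ h ∈ Finset.range (c + (w.length + 1)),
        (if true ∈ (List.replicate z false ++ true :: (List.replicate c false ++ w)).take
            (z + 1 + h) then
          (if (1 : ℕ) = 0 then 0 else T t (step (List.replicate z false ++
            true :: (List.replicate c false ++ w)) (z + 1 + h)) (1 - 1))
          else T t (step (List.replicate z false ++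
            true :: (List.replicate c false ++ w)) (z + 1 + h)) 1) =
        B t (z + 1 + min h c) := by
      intro h _
      rw [if_pos (take_unlucky z h _), if_neg one_ne_zero]
      exact T_step t z c h w hw
    rw [Finset.sum_congr rfl h2, sum_min c (w.length + 1) (fun i => B t (z + 1 + i))]
    push_cast
    rw [add_assoc (∑ g ∈ Finset.range (z + 1), e t (m + 1) (g + 1) (z - g))]
    congr 1
    · apply Finset.sum_congr rfl
      intro g hg
      have := Finset.mem_range.1 hg
      apply ih
      · exact Or.inr ⟨_, rfl⟩
      · rw [List.length_cons, List.length_append, List.length_replicate]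
        omega
    · congr 1
      have : (w.length : ℚ) + 1 = 2 * m - z - c := by
        have h3 : (w.length : ℚ) + (z + 1 + c) = 2 * m := by
          exact_mod_cast (by omega : w.length + (z + 1 + c) = 2 * m)
        linarith
      rw [this]

theorem a_pred (n : ℕ) : (a (n + 1) n : ℚ) = e n 1 1 0 := by
  rw [a_eq (n + 1) n (Nat.le_succ n)]
  have h : n + 1 - n = 1 := by omega
  rw [h]
  have h2 : T (n + 1) [] 1 = T n [false, true] 1 := by
    rw [T]
    simp [step, ftf]
  rw [h2]
  have h3 := T_one n 1 1 0 [] (Or.inl rfl) (by simp)
  simpa using h3

end Pool.Agent.LuckyStirling
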