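import Pool.Agent.Work.MP_d4a4cd_co_h99.Ins

/-!
# The Markov chain of the marks
-/

set_option autoImplicit false

namespace Pool.Agent.LuckyStirling

/-- One insertion at the gap `g`. -/
def step (u : List Bool) (g : ℕ) : List Bool := ftf (u.take g ++ true :: true :: u.drop g)

lemma length_ftf (u : List Bool) : (ftf u).length = u.length := by
  induction u with
  | nil => rfl
  | cons x u ih => cases x <;> simp [ftf, ih]

lemma length_step (u : List Bool) (g : ℕ) : (step u g).length = u.length + 2 := by
  unfold step
  rw [length_ftf, List.length_append, List.length_cons, List.length_cons, List.length_take,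
    List.length_drop]
  omega

/-- Number of continuations with `t` steps, exactly `j` of which are not lucky. -/
def T : ℕ → List Bool → ℕ → ℕ
  | 0, _, j => if j = 0 then 1 else 0
  | t + 1, u, j => ∑ g ∈ Finset.range (u.length + 1),
      if true ∈ u.take g then (if j = 0 then 0 else T t (step u g) (j - 1)) else T t (step u g) j

lemma mk_ins' (m g : ℕ) (u : List ℕ) (hu : ∀ x ∈ u, x ≤ m) :
    mk (m + 1) ∅ (ins (m + 1) u g) = step (mk m ∅ u) g := by
  unfold ins
  rw [mk_ins m _ _ (fun x hx => hu x (List.mem_of_mem_take hx))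
    (fun x hx => hu x (List.mem_of_mem_drop hx))]
  have h : mk m ∅ u = mk m ∅ (u.take g) ++ mk m (oc ∅ (u.take g)) (u.drop g) := by
    rw [← mk_append, List.take_append_drop]
  unfold step
  congr 1
  by_cases hg : g ≤ u.length
  · have hl : (mk m ∅ (u.take g)).length = g := by
      rw [length_mk, List.length_take]; omega
    rw [h, List.take_left' hl, List.drop_left' hl]
  · have h1 : u.take g = u := List.take_of_length_le (by omega)
    have h2 : u.drop g = [] := List.drop_eq_nil_of_le (by omega)
    have h3 : (mk m ∅ u).take g = mk m ∅ u := List.take_of_length_le (by rw [length_mk]; omega)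
    have h4 : (mk m ∅ u).drop g = [] := List.drop_eq_nil_of_le (by rw [length_mk]; omega)
    rw [h1, h2, h3, h4]
    rfl

lemma take_mk (m g : ℕ) (u : List ℕ) (hg : g ≤ u.length) :
    (mk m ∅ u).take g = mk m ∅ (u.take g) := by
  have h : mk m ∅ u = mk m ∅ (u.take g) ++ mk m (oc ∅ (u.take g)) (u.drop g) := by
    rw [← mk_append, List.take_append_drop]
  have hl : (mk m ∅ (u.take g)).length = g := by
    rw [length_mk, List.length_take]; omega
  rw [h, List.take_left' hl]

lemma lucky_ins' (m g : ℕ) (u : List ℕ) (hu : ∀ x ∈ u, x ≤ m) (hg : g ≤ u.length) :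
    lucky (ins (m + 1) u g) = lucky u + if true ∈ (mk m ∅ u).take g then 0 else 1 := by
  unfold ins
  rw [lucky_ins m _ _ (fun x hx => hu x (List.mem_of_mem_take hx))
    (fun x hx => hu x (List.mem_of_mem_drop hx)), List.take_append_drop, take_mk m g u hg]

lemma lucky_le {m : ℕ} {w : List ℕ} (h : w ∈ Q m) : lucky w ≤ m := by
  induction m generalizing w with
  | zero =>
    unfold Q at h
    rw [Finset.mem_singleton] at h
    subst h
    simp [lucky, dis]
  | succ m ih =>
    obtain ⟨u, g, hu, hg, rfl⟩ := isStirling_succ (mem_Q.1 h)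
    have h1 := ih (mem_Q.2 hu)
    rw [lucky_ins' m g u (fun x hx => (hu.1 x hx).2) hg]
    split_ifs <;> omega

/-- The sum over the words of order `m`. -/
noncomputable def Phi (m t j : ℕ) : ℕ :=
  ∑ w ∈ Q m, if m - lucky w ≤ j then T t (mk m ∅ w) (j - (m - lucky w)) else 0

lemma Phi_succ (m t j : ℕ) : Phi (m + 1) t j = Phi m (t + 1) j := by
  unfold Phi
  rw [sum_Q_succ]
  apply Finset.sum_congr rfl
  intro u hu
  have hS := mem_Q.1 hu
  have hle : ∀ x ∈ u, x ≤ m := fun x hx => (hS.1 x hx).2
  have hlen := isStirling_length hS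
  have hlu := lucky_le hu
  have hl' : (mk m ∅ u).length = 2 * m := by rw [length_mk, hlen]
  rw [T, hl']
  by_cases h1 : m - lucky u ≤ j
  · rw [if_pos h1]
    apply Finset.sum_congr rfl
    intro g hg
    have hg' : g ≤ u.length := by
      have := Finset.mem_range.1 hg
      omega
    rw [mk_ins' m g u hle, lucky_ins' m g u hle hg']
    by_cases h2 : true ∈ (mk m ∅ u).take g
    · rw [if_pos h2, if_pos h2, add_zero]
      by_cases h3 : j - (m - lucky u) = 0
      · rw [if_pos h3, if_neg (by omega)]
      · rw [if_neg h3, if_pos (by omega)]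
        congr 1
        omega
    · rw [if_neg h2, if_neg h2]
      have h3 : m + 1 - (lucky u + 1) = m - lucky u := by omega
      rw [h3, if_pos h1]
  · rw [if_neg h1]
    apply Finset.sum_eq_zero
    intro g hg
    have hg' : g ≤ u.length := by
      have := Finset.mem_range.1 hg
      omega
    rw [if_neg]
    rw [lucky_ins' m g u hle hg']
    split_ifs <;> omega

lemma Phi_eq (m t j : ℕ) : Phi m t j = Phi 0 (m + t) j := by
  induction m generalizing t with
  | zero => rw [Nat.zero_add]
  | succ m ih => rw [Phi_succ, ih]; congr 1; omega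

theorem a_eq (n k : ℕ) (hk : k ≤ n) : a n k = T n [] (n - k) := by
  have h1 : Phi 0 n (n - k) = T n [] (n - k) := by
    unfold Phi Q
    rw [Finset.sum_singleton]
    simp [mk, pk]
  have h2 : Phi n 0 (n - k) = ((Q n).filter fun w => lucky w = k).card := by
    unfold Phi
    rw [Finset.card_filter]
    apply Finset.sum_congr rfl
    intro w hw
    have := lucky_le hw
    rw [T]
    split_ifs <;> omega
  have h3 : a n k = ((Q n).filter fun w => lucky w = k).card := by
    unfold a
    rw [← Nat.card_eq_finsetCard]
    apply Nat.card_congr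
    refine Equiv.subtypeEquivRight fun w => ?_
    rw [Finset.mem_filter, mem_Q]
  rw [h3, ← h2, Phi_eq, ← h1]
  simp

end Pool.Agent.LuckyStirling
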