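import Pool.Agent.Work.MP_d4a4cd_co_h99.Eval

/-!
# Closed forms
-/

set_option autoImplicit false

namespace Pool.Agent.LuckyStirling

/-- binomial coefficient -/
def hh (t z : ℕ) : ℚ := ((2 * t + z).choose t : ℚ)

/-- partial sum of binomial coefficients -/
def SS (t z : ℕ) : ℚ := ∑ i ∈ Finset.range (t + 1), ((2 * t + z).choose i : ℚ)

lemma hh_right (t z : ℕ) : hh t (z + 1) * (t + z + 1) = hh t z * (2 * t + z + 1) := by
  unfold hh
  have h := Nat.choose_mul_succ_eq (2 * t + z) t
  have h2 : 2 * t + z + 1 - t = t + z + 1 := by omega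
  rw [h2] at h
  have h3 : (2 * t + (z + 1)).choose t = (2 * t + z + 1).choose t := rfl
  rw [h3]
  exact_mod_cast h.symm

lemma hh_up (t z : ℕ) : hh (t + 1) z * (t + 1) = hh t (z + 1) * (2 * t + z + 2) := by
  unfold hh
  have h := Nat.add_one_mul_choose_eq (2 * t + z + 1) t
  have h2 : (2 * (t + 1) + z).choose (t + 1) = (2 * t + z + 1 + 1).choose (t + 1) := by
    congr 1; ring
  have h3 : (2 * t + (z + 1)).choose t = (2 * t + z + 1).choose t := rfl
  rw [h2, h3]
  have h4 : ((2 * t + z + 1 + 1 : ℕ) : ℚ) * ((2 * t + z + 1).choose t : ℚ) =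
      ((2 * t + z + 1 + 1).choose (t + 1) : ℚ) * ((t + 1 : ℕ) : ℚ) := by
    exact_mod_cast h
  push_cast at h4
  linear_combination -h4

lemma SS_right (t z : ℕ) : SS t (z + 1) = 2 * SS t z - hh t z := by
  unfold SS hh
  have h3 : ∀ i, (2 * t + (z + 1)).choose i = (2 * t + z + 1).choose i := fun _ => rfl
  simp only [h3]
  rw [Finset.sum_range_succ' (fun i => ((2 * t + z + 1).choose i : ℚ))]
  have h : ∑ i ∈ Finset.range t, ((2 * t + z + 1).choose (i + 1) : ℚ) =
      ∑ i ∈ Finset.range t, ((2 * t + z).choose i : ℚ) +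
      ∑ i ∈ Finset.range t, ((2 * t + z).choose (i + 1) : ℚ) := by
    rw [← Finset.sum_add_distrib]
    apply Finset.sum_congr rfl
    intro i _
    rw [Nat.choose_succ_succ]
    push_cast
    ring
  rw [h]
  have h1 := Finset.sum_range_succ (fun i => ((2 * t + z).choose i : ℚ)) t
  have h2 := Finset.sum_range_succ' (fun i => ((2 * t + z).choose i : ℚ)) t
  simp only [Nat.choose_zero_right, Nat.cast_one] at h2 ⊢
  linarith

lemma SS_up (t z : ℕ) : SS (t + 1) z = SS t (z + 2) + hh (t + 1) z := by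
  unfold SS hh
  rw [Finset.sum_range_succ]
  congr 1
  apply Finset.sum_congr rfl
  intro i _
  congr 2
  ring

lemma B_eq (t z : ℕ) : (B t z : ℚ) = hh t z * (z + 1) / (t + z + 1) := by
  induction t generalizing z with
  | zero =>
    have h : (z : ℚ) + 1 ≠ 0 := by positivity
    simp only [B, hh, Nat.choose_zero_right, Nat.cast_one, Nat.cast_zero, zero_add, one_mul]
    rw [div_self h]
  | succ t ih =>
    induction z with
    | zero =>
      rw [B]
      simp only [zero_add, Finset.sum_range_one]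
      rw [ih 1]
      have h1 := hh_up t 0
      simp only [zero_add] at h1
      have h3 : (t : ℚ) + 1 ≠ 0 := by positivity
      have h4 : hh (t + 1) 0 = 2 * hh t 1 := by
        push_cast at h1
        have h5 : hh (t + 1) 0 * (t + 1) = (2 * hh t 1) * (t + 1) := by
          linear_combination h1
        exact mul_right_cancel₀ h3 h5
      rw [h4]
      push_cast
      ring
    | succ z ihz =>
      have h0 : B (t + 1) (z + 1) = B (t + 1) z + B t (z + 2) := by
        rw [B, Finset.sum_range_succ, B]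
      rw [h0]
      push_cast
      rw [ihz, ih (z + 2)]
      have h1 := hh_up t z
      have h2 := hh_up t (z + 1)
      have h3 := hh_right t (z + 1)
      push_cast at h1 h2 h3 ⊢
      have e1 : (t : ℚ) + 1 ≠ 0 := by positivity
      have e2 : (2 : ℚ) * t + z + 2 ≠ 0 := by positivity
      have e3 : (t : ℚ) + z + 2 ≠ 0 := by positivity
      have e4 : (t : ℚ) + z + 3 ≠ 0 := by positivity
      have g1 : hh t (z + 1) = hh t (z + 2) * (t + z + 2) / (2 * t + z + 2) := by
        rw [eq_div_iff e2]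
        linear_combination -h3
      have g2 : hh (t + 1) z = hh t (z + 2) * (t + z + 2) / (t + 1) := by
        rw [eq_div_iff e1, h1, g1]
        field_simp
      have g3 : hh (t + 1) (z + 1) = hh t (z + 2) * (2 * t + z + 3) / (t + 1) := by
        rw [eq_div_iff e1, h2]
        ring
      rw [g2, g3]
      have e5 : (t : ℚ) + 1 + z + 1 ≠ 0 := by positivity
      have e6 : (t : ℚ) + (z + 2) + 1 ≠ 0 := by positivity
      have e7 : (t : ℚ) + 1 + (z + 1) + 1 ≠ 0 := by positivity
      field_simp
      ring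

/-- sum over the first block -/
def G (t m z : ℕ) : ℚ := ∑ g ∈ Finset.range (z + 1), e t m (g + 1) (z - g)

lemma double_sum (F : ℕ → ℚ) (z : ℕ) :
    ∑ g ∈ Finset.range (z + 1), ∑ i ∈ Finset.range (z - g), F (g + i) =
      ∑ j ∈ Finset.range z, (j + 1) * F j := by
  induction z with
  | zero => simp
  | succ z ih =>
    rw [Finset.sum_range_succ (fun j : ℕ => ((j : ℚ) + 1) * F j) z, ← ih,
      Finset.sum_range_succ _ (z + 1)]
    have h : ∀ g ∈ Finset.range (z + 1), ∑ i ∈ Finset.range (z + 1 - g), F (g + i) =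
        ∑ i ∈ Finset.range (z - g), F (g + i) + F z := by
      intro g hg
      have := Finset.mem_range.1 hg
      have h1 : z + 1 - g = (z - g) + 1 := by omega
      rw [h1, Finset.sum_range_succ]
      congr 2
      omega
    rw [Finset.sum_congr rfl h, Finset.sum_add_distrib]
    simp

lemma G_zero (m z : ℕ) : G 0 m z = 0 := by
  unfold G
  apply Finset.sum_eq_zero
  intro g _
  rw [e]

lemma G_succ (t m z : ℕ) : G (t + 1) m z = ∑ g ∈ Finset.range (z + 1), G t (m + 1) (g + 1) +
    ∑ j ∈ Finset.range z, ((j : ℚ) + 1) * (B t (j + 2) : ℚ) +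
    (z + 1) * (2 * m - z - 1) * (B t (z + 2) : ℚ) := by
  have h1 : G (t + 1) m z = ∑ g ∈ Finset.range (z + 1), (G t (m + 1) (g + 1) +
      ∑ i ∈ Finset.range (z - g), (B t ((g + i) + 2) : ℚ) +
      (2 * m - z - 1) * (B t (z + 2) : ℚ)) := by
    unfold G
    apply Finset.sum_congr rfl
    intro g hg
    have hg' := Finset.mem_range.1 hg
    rw [e]
    congr 1
    · congr 1
      apply Finset.sum_congr rfl
      intro i _
      congr 2
      omega
    · have h2 : g + 1 + 1 + (z - g) = z + 2 := by omega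
      rw [h2]
      have h3 : ((z - g : ℕ) : ℚ) = z - g := by
        rw [Nat.cast_sub (by omega)]
      rw [h3]
      push_cast
      ring
  rw [h1, Finset.sum_add_distrib, Finset.sum_add_distrib, double_sum (fun j => (B t (j + 2) : ℚ))]
  simp only [Finset.sum_const, Finset.card_range, nsmul_eq_mul]
  push_cast
  ring

/-- the closed form -/
def cf (t m z : ℕ) : ℚ :=
  hh t z * ((-2 - 4 * t - 2 * t ^ 2 + t ^ 3 - 7 / 6 * z - z * t / 2 - z * t ^ 2 / 3 + z ^ 2 +
      z ^ 2 * t / 6 + z ^ 3 / 6 + m * (-2 - t + t ^ 2 - 2 * z)) +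
    (1 + 25 / 6 * t + t ^ 2 / 2 - 5 / 3 * t ^ 3 + m * (2 - 2 * t ^ 2)) * t / (t + z + 1) +
    (1 + 17 / 6 * t + 5 / 2 * t ^ 2 + 2 / 3 * t ^ 3 + m * (2 + 3 * t + t ^ 2)) * (t * (t - 1)) /
      ((t + z + 1) * (t + z + 2))) +
    SS t z * ((z + 1) * (12 * m + 6 * t + 12 - 5 * z - z ^ 2) / 6)

lemma G_eq (t m z : ℕ) : G t m z = cf t m z := by
  induction t generalizing m z with
  | zero =>
    rw [G_zero]
    unfold cf hh SS
    simp
    ring
  | succ t ih =>
    have e1 : (t : ℚ) + 1 ≠ 0 := by positivity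
    have e2 : (t : ℚ) + 2 ≠ 0 := by positivity
    have e3 : (t : ℚ) + 3 ≠ 0 := by positivity
    have e4 : (t : ℚ) + 4 ≠ 0 := by positivity
    induction z with
    | zero =>
      rw [G_succ]
      simp only [zero_add, Finset.sum_range_one, Finset.range_zero, Finset.sum_empty, add_zero]
      rw [ih, B_eq]
      have h1 := hh_up t 0
      have h2 := hh_right t 1
      have h3 := SS_up t 0
      have h4 := SS_right t 1
      simp only [zero_add] at h1 h3
      push_cast at h1 h2
      have g1 : hh (t + 1) 0 = 2 * hh t 1 := by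
        have : hh (t + 1) 0 * (t + 1) = (2 * hh t 1) * (t + 1) := by
          rw [h1]; ring
        exact mul_right_cancel₀ e1 this
      have g2 : hh t 2 = hh t 1 * (2 * t + 2) / (t + 2) := by
        rw [eq_div_iff e2]
        have h5 : hh t (1 + 1) = hh t 2 := rfl
        rw [h5] at h2
        linear_combination h2
      have h6 : SS t (1 + 1) = SS t 2 := rfl
      rw [h6] at h4
      have g3 : SS (t + 1) 0 = 2 * SS t 1 + hh t 1 := by
        rw [h3, h4, g1]; ring
      unfold cf
      rw [g1, g3, g2]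
      push_cast
      have e5 : (t : ℚ) + 1 + 1 ≠ 0 := by positivity
      have e6 : (t : ℚ) + 1 + 2 ≠ 0 := by positivity
      have e7 : (t : ℚ) + 2 + 1 ≠ 0 := by positivity
      have e8 : (t : ℚ) + 1 + 0 + 1 ≠ 0 := by positivity
      have e9 : (t : ℚ) + 1 + 0 + 2 ≠ 0 := by positivity
      field_simp
      ring
    | succ z ihz =>
      have hstep : G (t + 1) m (z + 1) = G (t + 1) m z + G t (m + 1) (z + 2) +
          (2 * m - z - 2) * ((z + 2) * (B t (z + 3) : ℚ) - (z + 1) * (B t (z + 2) : ℚ)) := by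
        rw [G_succ, G_succ, Finset.sum_range_succ _ (z + 1),
          Finset.sum_range_succ (fun j => ((j : ℚ) + 1) * (B t (j + 2) : ℚ)) z]
        push_cast
        ring
      rw [hstep, ihz, ih, B_eq, B_eq]
      have h1 := hh_up t z
      have h2 := hh_up t (z + 1)
      have h3 := hh_right t (z + 1)
      have h4 := hh_right t (z + 2)
      have h5 := SS_up t z
      have h6 := SS_right (t + 1) z
      push_cast at h1 h2 h3 h4
      have d2 : (2 : ℚ) * t + z + 2 ≠ 0 := by positivity
      have d3 : (t : ℚ) + z + 2 ≠ 0 := by positivity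
      have d4 : (t : ℚ) + z + 3 ≠ 0 := by positivity
      have d5 : (t : ℚ) + z + 4 ≠ 0 := by positivity
      have g1 : hh t (z + 1) = hh t (z + 2) * (t + z + 2) / (2 * t + z + 2) := by
        rw [eq_div_iff d2]
        linear_combination -h3
      have g2 : hh (t + 1) z = hh t (z + 2) * (t + z + 2) / (t + 1) := by
        rw [eq_div_iff e1, h1, g1]
        field_simp
      have g3 : hh (t + 1) (z + 1) = hh t (z + 2) * (2 * t + z + 3) / (t + 1) := by
        rw [eq_div_iff e1, h2]
        ring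
      have g4 : hh t (z + 3) = hh t (z + 2) * (2 * t + z + 3) / (t + z + 3) := by
        rw [eq_div_iff d4]
        linear_combination h4
      have g5 : SS (t + 1) z = SS t (z + 2) + hh t (z + 2) * (t + z + 2) / (t + 1) := by
        rw [h5, g2]
      have g6 : SS (t + 1) (z + 1) = 2 * SS t (z + 2) + hh t (z + 2) * (t + z + 2) / (t + 1) := by
        rw [h6, g5, g2]; ring
      unfold cf
      rw [g2, g3, g5, g6, g4]
      push_cast
      have f1 : (t : ℚ) + 1 + z + 1 ≠ 0 := by positivity
      have f2 : (t : ℚ) + 1 + z + 2 ≠ 0 := by positivity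
      have f3 : (t : ℚ) + 1 + (z + 1) + 1 ≠ 0 := by positivity
      have f4 : (t : ℚ) + 1 + (z + 1) + 2 ≠ 0 := by positivity
      have f5 : (t : ℚ) + (z + 2) + 1 ≠ 0 := by positivity
      have f6 : (t : ℚ) + (z + 2) + 2 ≠ 0 := by positivity
      have f7 : (t : ℚ) + (z + 3) + 1 ≠ 0 := by positivity
      field_simp
      ring

lemma SS_zero (t : ℕ) : 2 * SS t 0 = 4 ^ t + hh t 0 := by
  have h := SS_right t 0
  have h1 : SS t 1 = 4 ^ t := by
    unfold SS
    have := Nat.sum_range_choose_halfway t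
    exact_mod_cast this
  simp only [zero_add] at h
  rw [h1] at h
  linarith

/-- the diagonal `k = n - 1` -/
theorem diagonal (n : ℕ) : 8 * a (n + 1) n + 4 * (n + 2) * (2 * (n + 1)).choose (n + 1) =
    (n + 4) * 4 ^ (n + 1) := by
  have h0 : (a (n + 1) n : ℚ) = cf n 1 0 := by
    rw [a_pred, ← G_eq]
    unfold G
    simp
  have h1 : (((2 * (n + 1)).choose (n + 1) : ℕ) : ℚ) = hh (n + 1) 0 := rfl
  have e1 : (n : ℚ) + 1 ≠ 0 := by positivity
  have e2 : (n : ℚ) + 2 ≠ 0 := by positivity
  have h2 := hh_up n 0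
  have h3 := hh_right n 0
  simp only [zero_add] at h2 h3
  push_cast at h2 h3
  have g1 : hh n 1 = hh n 0 * (2 * n + 1) / (n + 1) := by
    rw [eq_div_iff e1]
    linear_combination h3
  have g2 : hh (n + 1) 0 = 2 * (hh n 0 * (2 * n + 1) / (n + 1)) := by
    rw [← g1]
    have : hh (n + 1) 0 * (n + 1) = (2 * hh n 1) * (n + 1) := by
      rw [h2]; ring
    exact mul_right_cancel₀ e1 this
  have g3 : SS n 0 = (4 ^ n + hh n 0) / 2 := by
    have := SS_zero n
    linarith
  have key : (8 : ℚ) * (a (n + 1) n : ℚ) + 4 * (n + 2) * (((2 * (n + 1)).choose (n + 1) : ℕ) : ℚ) =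
      (n + 4) * 4 ^ (n + 1) := by
    rw [h0, h1, g2]
    unfold cf
    rw [g3]
    push_cast
    have e3 : (n : ℚ) + 0 + 1 ≠ 0 := by positivity
    have e4 : (n : ℚ) + 0 + 2 ≠ 0 := by positivity
    rw [pow_succ]
    field_simp
    ring
  exact_mod_cast key

end Pool.Agent.LuckyStirling
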