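import Mathlib

/-!
# Lucky cars of Stirling permutations: definitions
-/

set_option autoImplicit false

namespace Pool.Agent.LuckyStirling

/-- `w` is a Stirling permutation of order `n`: its letters are `1, …, n`, each of them twice, and
if `i, x, i` occur in this order in `w` then `i < x`. -/
def IsStirling (n : ℕ) (w : List ℕ) : Prop :=
  (∀ x ∈ w, 1 ≤ x ∧ x ≤ n) ∧ (∀ i, 1 ≤ i → i ≤ n → w.count i = 2) ∧
    ∀ i x : ℕ, [i, x, i].Sublist w → i < x

/-- The first free spot at or after `x` if the spots in `S` are occupied. -/
noncomputable def spot (S : Finset ℕ) (x : ℕ) : ℕ := sInf {y | x ≤ y ∧ y ∉ S}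

/-- The displacements of the cars with the preferences `w`, if the spots in `S` are already
occupied. -/
noncomputable def dis : Finset ℕ → List ℕ → List ℕ
  | _, [] => []
  | S, x :: w => (spot S x - x) :: dis (insert (spot S x) S) w

/-- The number of lucky cars: the number of zero displacements. -/
noncomputable def lucky (w : List ℕ) : ℕ := (dis ∅ w).count 0

/-- The number of Stirling permutations of order `n` with exactly `k` lucky cars. -/
noncomputable def a (n k : ℕ) : ℕ := Nat.card {w : List ℕ // IsStirling n w ∧ lucky w = k}

end Pool.Agent.LuckyStirling
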