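import Pool.Agent.Work.MP_d4a4cd_co_h99.Closed

/-!
# MP_d4a4cd_co: the number of Stirling permutations of order `n` with exactly `n - 1` lucky cars

`a n k` is the number of Stirling permutations of order `n` with exactly `k` lucky cars
(definitions in `Pool/Agent/Work/MP_d4a4cd_co_h99/Defs.lean`). The diagonal `k = n - 1` has the
closed form `a n (n - 1) = ((n + 3) 4 ^ n - 4 (n + 1) binom (2 n) n) / 8`.
-/

set_option autoImplicit false

namespace Pool.Agent.Work.MP_d4a4cd_co_h99.DiagonalNMinusOneOld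

open Pool.Agent.LuckyStirling

/-- `8 a(n, n - 1) + 4 (n + 1) binom (2 n) n = (n + 3) 4 ^ n` for all `n ≥ 1`. -/
theorem result (n : ℕ) (hn : 1 ≤ n) :
    8 * a n (n - 1) + 4 * (n + 1) * (2 * n).choose n = (n + 3) * 4 ^ n := by
  obtain ⟨m, rfl⟩ : ∃ m, n = m + 1 := ⟨n - 1, by omega⟩
  exact diagonal m

end Pool.Agent.Work.MP_d4a4cd_co_h99.DiagonalNMinusOneOld
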