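import Pool.Agent.Work.MP_d4a4cd_co_h99.Park

/-!
# Stirling permutations by insertion of the largest letter
-/

set_option autoImplicit false

namespace Pool.Agent.LuckyStirling

/-- Insertion of the pair `M M` after the first `g` letters of `u`. -/
def ins (M : ℕ) (u : List ℕ) (g : ℕ) : List ℕ := u.take g ++ M :: M :: u.drop g

lemma not_sub_MxM {M x : ℕ} {v w : List ℕ} (hv : M ∉ v) (hw : M ∉ w) :
    ¬ [M, x, M].Sublist (v ++ M :: M :: w) := by
  intro h
  rw [List.sublist_append_iff] at h
  obtain ⟨p, q, hpq, hp, hq⟩ := h
  have hp0 : p = [] := by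
    rcases p with _ | ⟨y, p⟩
    · rfl
    · simp only [List.cons_append, List.cons.injEq] at hpq
      exact absurd (hp.subset (by rw [← hpq.1]; exact List.mem_cons_self)) hv
  rw [hp0, List.nil_append] at hpq
  rw [← hpq] at hq
  have h1 : [x, M].Sublist (M :: w) := by
    rcases List.sublist_cons_iff.1 hq with h | ⟨r, hr, h⟩
    · exact (List.sublist_cons_self M [x, M]).trans h
    · simp only [List.cons.injEq, true_and] at hr
      rw [hr]; exact h
  have h2 : M ∈ w := by
    rcases List.sublist_cons_iff.1 h1 with h | ⟨r, hr, h⟩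
    · exact h.subset (by simp)
    · simp only [List.cons.injEq] at hr
      exact h.subset (by rw [← hr.2]; simp)
  exact hw h2

lemma isStirling_not_mem {m : ℕ} {u : List ℕ} (h : IsStirling m u) : m + 1 ∉ u := fun h1 => by
  have := (h.1 _ h1).2
  omega

lemma isStirling_length {m : ℕ} {u : List ℕ} (h : IsStirling m u) : u.length = 2 * m := by
  have h1 : (u : Multiset ℕ).card = ∑ i ∈ Finset.Icc 1 m, (u : Multiset ℕ).count i := by
    rw [← Multiset.toFinset_sum_count_eq]
    apply Finset.sum_subset
    · intro x hx
      rw [Multiset.mem_toFinset, Multiset.mem_coe] at hx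
      exact Finset.mem_Icc.2 (h.1 x hx)
    · intro x _ hx
      rw [Multiset.mem_toFinset] at hx
      exact Multiset.count_eq_zero_of_notMem hx
  rw [Multiset.coe_card] at h1
  rw [h1, Finset.sum_congr rfl (fun i hi => by
    rw [Multiset.coe_count, h.2.1 i (Finset.mem_Icc.1 hi).1 (Finset.mem_Icc.1 hi).2])]
  simp
  omega

lemma isStirling_ins {m : ℕ} {u : List ℕ} (h : IsStirling m u) (g : ℕ) :
    IsStirling (m + 1) (ins (m + 1) u g) := by
  have hM := isStirling_not_mem h
  have ht : m + 1 ∉ u.take g := fun h1 => hM (List.mem_of_mem_take h1)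
  have hd : m + 1 ∉ u.drop g := fun h1 => hM (List.mem_of_mem_drop h1)
  refine ⟨?_, ?_, ?_⟩
  · intro x hx
    unfold ins at hx
    simp only [List.mem_append, List.mem_cons] at hx
    rcases hx with hx | rfl | rfl | hx
    · have := h.1 x (List.mem_of_mem_take hx); omega
    · omega
    · omega
    · have := h.1 x (List.mem_of_mem_drop hx); omega
  · intro i h1 h2
    unfold ins
    rw [List.count_append, List.count_cons, List.count_cons]
    by_cases hi : i = m + 1
    · subst hi
      rw [List.count_eq_zero_of_not_mem ht, List.count_eq_zero_of_not_mem hd]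
      simp
    · have h3 := h.2.1 i h1 (by omega)
      rw [← List.take_append_drop g u, List.count_append] at h3
      have h4 : ((m + 1 : ℕ) == i) = false := by
        rw [beq_eq_false_iff_ne]; omega
      rw [h4]
      simpa using h3
  · intro i x hs
    by_cases hi : i = m + 1
    · subst hi
      exact absurd hs (not_sub_MxM ht hd)
    · by_cases hx : x = m + 1
      · have h1 : i ∈ ins (m + 1) u g := hs.subset (by simp)
        unfold ins at h1
        simp only [List.mem_append, List.mem_cons] at h1
        rcases h1 with h1 | h1 | h1 | h1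
        · have := (h.1 i (List.mem_of_mem_take h1)).2; omega
        · exact absurd h1 hi
        · exact absurd h1 hi
        · have := (h.1 i (List.mem_of_mem_drop h1)).2; omega
      · have h1 := hs.filter (fun y => decide (y ≠ m + 1))
        have h2 : (ins (m + 1) u g).filter (fun y => decide (y ≠ m + 1)) = u := by
          unfold ins
          rw [List.filter_append, List.filter_cons, List.filter_cons]
          simp only [ne_eq, not_true_eq_false, decide_false, Bool.false_eq_true, if_false]
          rw [← List.filter_append, List.take_append_drop]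
          apply List.filter_eq_self.2
          intro y hy
          simp only [decide_not, Bool.not_eq_eq_eq_not, Bool.not_true, decide_eq_false_iff_not]
          rintro rfl
          exact hM hy
        rw [h2] at h1
        have h3 : [i, x, i].filter (fun y => decide (y ≠ m + 1)) = [i, x, i] := by
          simp [List.filter_cons, hi, hx]
        rw [h3] at h1
        exact h.2.2 i x h1

lemma isStirling_succ {m : ℕ} {w : List ℕ} (h : IsStirling (m + 1) w) :
    ∃ u g, IsStirling m u ∧ g ≤ u.length ∧ w = ins (m + 1) u g := by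
  have hc := h.2.1 (m + 1) (by omega) (le_refl _)
  have hmem : m + 1 ∈ w := List.count_pos_iff.1 (by omega)
  obtain ⟨l1, l2, hw, hl1⟩ := List.eq_append_cons_of_mem hmem
  subst hw
  rw [List.count_append, List.count_cons_self, List.count_eq_zero_of_not_mem hl1] at hc
  have hmem2 : m + 1 ∈ l2 := List.count_pos_iff.1 (by omega)
  obtain ⟨l3, l4, hl2, hl3⟩ := List.eq_append_cons_of_mem hmem2
  subst hl2
  rw [List.count_append, List.count_cons_self, List.count_eq_zero_of_not_mem hl3] at hc
  have hl4 : m + 1 ∉ l4 := fun h1 => by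
    have := List.count_pos_iff.2 h1
    omega
  have h3 : l3 = [] := by
    rcases l3 with _ | ⟨x, l3⟩
    · rfl
    · exfalso
      have h1 : [m + 1, x, m + 1].Sublist (l1 ++ (m + 1) :: (x :: l3 ++ (m + 1) :: l4)) := by
        refine List.Sublist.trans ?_ (List.sublist_append_right _ _)
        refine List.Sublist.cons_cons _ ?_
        rw [List.cons_append]
        refine List.Sublist.cons_cons _ ?_
        refine List.Sublist.trans ?_ (List.sublist_append_right _ _)
        exact List.Sublist.cons_cons _ (List.nil_sublist _)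
      have h2 := h.2.2 _ _ h1
      have h4 := (h.1 x (by simp)).2
      omega
  subst h3
  rw [List.nil_append] at h ⊢
  have hsub : (l1 ++ l4).Sublist (l1 ++ (m + 1) :: (m + 1) :: l4) :=
    List.Sublist.append (List.Sublist.refl _)
      ((List.sublist_cons_self _ _).trans (List.sublist_cons_self _ _))
  have hn : m + 1 ∉ l1 ++ l4 := by
    rw [List.mem_append, not_or]
    exact ⟨hl1, hl4⟩
  refine ⟨l1 ++ l4, l1.length, ⟨?_, ?_, ?_⟩, by simp, ?_⟩
  · intro x hx
    have h1 := h.1 x (hsub.subset hx)
    have h2 : x ≠ m + 1 := by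
      rintro rfl
      exact hn hx
    omega
  · intro i h1 h2
    have h4 := h.2.1 i h1 (by omega)
    rw [List.count_append, List.count_cons, List.count_cons] at h4
    have h5 : ((m + 1 : ℕ) == i) = false := by
      rw [beq_eq_false_iff_ne]; omega
    rw [h5] at h4
    rw [List.count_append]
    simpa using h4
  · intro i x hs
    exact h.2.2 i x (hs.trans hsub)
  · unfold ins
    rw [List.take_left, List.drop_left]

lemma ins_inj {M : ℕ} {u u' : List ℕ} {g g' : ℕ} (hu : M ∉ u) (hu' : M ∉ u') (hg : g ≤ u.length)
    (hg' : g' ≤ u'.length) (h : ins M u g = ins M u' g') : u = u' ∧ g = g' := by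
  have key : ∀ (v : List ℕ) (k : ℕ), M ∉ v → k ≤ v.length → (ins M v k).idxOf M = k := by
    intro v k hv hk
    unfold ins
    rw [List.idxOf_append_of_notMem (fun h1 => hv (List.mem_of_mem_take h1)), List.idxOf_cons_self,
      List.length_take]
    omega
  have h1 : g = g' := by
    rw [← key u g hu hg, ← key u' g' hu' hg', h]
  subst h1
  refine ⟨?_, rfl⟩
  unfold ins at h
  have h2 := List.append_inj h (by rw [List.length_take, List.length_take]; omega)
  have h3 := h2.2
  simp only [List.cons.injEq, true_and] at h3
  rw [← List.take_append_drop g u, ← List.take_append_drop g u', h2.1, h3]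

/-- The Stirling permutations of order `m`. -/
def Q : ℕ → Finset (List ℕ)
  | 0 => {[]}
  | m + 1 => ((Q m) ×ˢ (Finset.range (2 * m + 1))).image fun p => ins (m + 1) p.1 p.2

lemma mem_Q {m : ℕ} {w : List ℕ} : w ∈ Q m ↔ IsStirling m w := by
  induction m generalizing w with
  | zero =>
    unfold Q
    rw [Finset.mem_singleton]
    constructor
    · rintro rfl
      refine ⟨by simp, fun i h1 h2 => by omega, fun i x h => ?_⟩
      exact absurd h (by simp)
    · intro h
      exact List.length_eq_zero_iff.1 (isStirling_length h)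
  | succ m ih =>
    unfold Q
    rw [Finset.mem_image]
    constructor
    · rintro ⟨⟨u, g⟩, hp, rfl⟩
      rw [Finset.mem_product] at hp
      exact isStirling_ins (ih.1 hp.1) g
    · intro h
      obtain ⟨u, g, hu, hg, rfl⟩ := isStirling_succ h
      refine ⟨(u, g), Finset.mem_product.2 ⟨ih.2 hu, ?_⟩, rfl⟩
      rw [isStirling_length hu] at hg
      exact Finset.mem_range.2 (by omega)

lemma sum_Q_succ (m : ℕ) (F : List ℕ → ℕ) :
    ∑ w ∈ Q (m + 1), F w = ∑ u ∈ Q m, ∑ g ∈ Finset.range (2 * m + 1), F (ins (m + 1) u g) := by
  rw [Q, Finset.sum_image, Finset.sum_product]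
  rintro ⟨u, g⟩ h1 ⟨u', g'⟩ h2 h
  rw [Finset.mem_coe, Finset.mem_product] at h1 h2
  have e1 := mem_Q.1 h1.1
  have e2 := mem_Q.1 h2.1
  have e3 := Finset.mem_range.1 h1.2
  have e4 := Finset.mem_range.1 h2.2
  obtain ⟨h5, h6⟩ := ins_inj (isStirling_not_mem e1) (isStirling_not_mem e2)
    (by rw [isStirling_length e1]; omega) (by rw [isStirling_length e2]; omega) h
  rw [Prod.mk.injEq]
  exact ⟨h5, h6⟩

end Pool.Agent.LuckyStirling
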