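import Pool.Agent.Work.MP_d4a4cd_co_h99.Defs

/-!
# The parking process and the marks
-/

set_option autoImplicit false

namespace Pool.Agent.LuckyStirling

lemma spot_spec (S : Finset ℕ) (x : ℕ) : x ≤ spot S x ∧ spot S x ∉ S ∧
    ∀ y, x ≤ y → y ∉ S → spot S x ≤ y := by
  have hne : {y | x ≤ y ∧ y ∉ S}.Nonempty := by
    refine ⟨max x (S.sup id + 1), le_max_left _ _, fun h => ?_⟩
    have h1 : max x (S.sup id + 1) ≤ S.sup id := Finset.le_sup (f := id) h
    have h2 := le_max_right x (S.sup id + 1)
    omega
  have h := Nat.sInf_mem hne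
  exact ⟨h.1, h.2, fun y h1 h2 => Nat.sInf_le ⟨h1, h2⟩⟩

/-- The spots of the cars. -/
noncomputable def pk : Finset ℕ → List ℕ → List ℕ
  | _, [] => []
  | S, x :: w => spot S x :: pk (insert (spot S x) S) w

/-- The occupied spots after the cars `w`. -/
noncomputable def oc : Finset ℕ → List ℕ → Finset ℕ
  | S, [] => S
  | S, x :: w => oc (insert (spot S x) S) w

/-- The marks: `true` if the car parks after the spot `m`. -/
noncomputable def mk (m : ℕ) (S : Finset ℕ) (w : List ℕ) : List Bool :=
  (pk S w).map fun p => decide (m < p)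

lemma pk_append (S : Finset ℕ) (v w : List ℕ) : pk S (v ++ w) = pk S v ++ pk (oc S v) w := by
  induction v generalizing S with
  | nil => rfl
  | cons x v ih => simp [pk, oc, ih]

lemma dis_append (S : Finset ℕ) (v w : List ℕ) : dis S (v ++ w) = dis S v ++ dis (oc S v) w := by
  induction v generalizing S with
  | nil => rfl
  | cons x v ih => simp [dis, oc, ih]

lemma length_pk (S : Finset ℕ) (w : List ℕ) : (pk S w).length = w.length := by
  induction w generalizing S with
  | nil => rfl
  | cons x w ih => simp [pk, ih]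

lemma length_mk (m : ℕ) (S : Finset ℕ) (w : List ℕ) : (mk m S w).length = w.length := by
  simp [mk, length_pk]

/-- Equality of the occupied spots up to `m`. -/
def Eqm (m : ℕ) (S T : Finset ℕ) : Prop := ∀ y, y ≤ m → (y ∈ S ↔ y ∈ T)

lemma spot_eqm {m : ℕ} {S T : Finset ℕ} (h : Eqm m S T) (x : ℕ) :
    (spot S x = spot T x ∧ spot S x ≤ m) ∨ (m < spot S x ∧ m < spot T x) := by
  obtain ⟨h1, h2, h3⟩ := spot_spec S x
  obtain ⟨h1', h2', h3'⟩ := spot_spec T x
  by_cases hS : spot S x ≤ m
  · left
    have h4 : spot T x ≤ spot S x := h3' _ h1 (fun h5 => h2 ((h _ hS).2 h5))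
    have h5 : spot S x ≤ spot T x := h3 _ h1' (fun h6 => h2' ((h _ (h4.trans hS)).1 h6))
    exact ⟨le_antisymm h5 h4, hS⟩
  · right
    refine ⟨by omega, ?_⟩
    by_contra hT
    have h4 : spot S x ≤ spot T x := h3 _ h1' (fun h6 => h2' ((h _ (by omega)).1 h6))
    omega

lemma eqm_insert {m : ℕ} {S T : Finset ℕ} (h : Eqm m S T) (x : ℕ) :
    Eqm m (insert (spot S x) S) (insert (spot T x) T) := by
  intro y hy
  rw [Finset.mem_insert, Finset.mem_insert, h y hy]
  rcases spot_eqm h x with ⟨h1, _⟩ | ⟨h1, h2⟩
  · rw [h1]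
  · constructor
    · rintro (h3 | h3)
      · omega
      · exact Or.inr h3
    · rintro (h3 | h3)
      · omega
      · exact Or.inr h3

lemma mk_eqm {m : ℕ} {S T : Finset ℕ} (h : Eqm m S T) (w : List ℕ) : mk m S w = mk m T w := by
  induction w generalizing S T with
  | nil => rfl
  | cons x w ih =>
    have h1 := ih (eqm_insert h x)
    unfold mk at h1 ⊢
    rw [pk, pk, List.map_cons, List.map_cons, h1]
    congr 1
    rcases spot_eqm h x with ⟨h2, h3⟩ | ⟨h2, h3⟩
    · rw [h2]
    · simp [h2, h3]

/-- Zero displacements of cars with preferences at most `m`. -/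
lemma dis_eqm {m : ℕ} {S T : Finset ℕ} (h : Eqm m S T) (w : List ℕ) (hw : ∀ x ∈ w, x ≤ m) :
    (dis S w).count 0 = (dis T w).count 0 := by
  induction w generalizing S T with
  | nil => rfl
  | cons x w ih =>
    have h1 := ih (eqm_insert h x) fun y hy => hw y (List.mem_cons_of_mem _ hy)
    rw [dis, dis, List.count_cons, List.count_cons, h1]
    congr 1
    have hx : x ≤ m := hw x List.mem_cons_self
    obtain ⟨h4, -, -⟩ := spot_spec S x
    obtain ⟨h4', -, -⟩ := spot_spec T x
    rcases spot_eqm h x with ⟨h2, h3⟩ | ⟨h2, h3⟩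
    · rw [h2]
    · have h5 : (spot S x - x == 0) = false := by
        rw [beq_eq_false_iff_ne]; omega
      have h6 : (spot T x - x == 0) = false := by
        rw [beq_eq_false_iff_ne]; omega
      rw [h5, h6]

lemma oc_eqm {m : ℕ} {S T : Finset ℕ} (h : Eqm m S T) (w : List ℕ) :
    Eqm m (oc S w) (oc T w) := by
  induction w generalizing S T with
  | nil => exact h
  | cons x w ih => exact ih (eqm_insert h x)

/-- A car with a preference after `m` does not change the spots up to `m`. -/
lemma eqm_big {m x : ℕ} (S : Finset ℕ) (hx : m < x) : Eqm m (insert (spot S x) S) S := by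
  intro y hy
  have := (spot_spec S x).1
  rw [Finset.mem_insert]
  constructor
  · rintro (h3 | h3)
    · omega
    · exact h3
  · exact Or.inr

/-- Turn the first `true` to `false`. -/
def ftf : List Bool → List Bool
  | [] => []
  | true :: u => false :: u
  | false :: u => false :: ftf u

/-- The mark for `m + 1` if the spot `m + 1` is occupied. -/
lemma mk_succ_of_mem {m : ℕ} {S : Finset ℕ} (h : m + 1 ∈ S) (w : List ℕ) :
    mk (m + 1) S w = mk m S w := by
  induction w generalizing S with
  | nil => rfl
  | cons x w ih =>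
    have h1 := ih (S := insert (spot S x) S) (Finset.mem_insert_of_mem h)
    unfold mk at h1 ⊢
    rw [pk, List.map_cons, List.map_cons, h1]
    congr 1
    have h2 : spot S x ≠ m + 1 := fun h3 => (spot_spec S x).2.1 (h3 ▸ h)
    rw [decide_eq_decide]
    omega

/-- The marks for `m + 1`, for words with letters at most `m + 1`. -/
lemma mk_succ {m : ℕ} {S : Finset ℕ} (h : m + 1 ∉ S) (w : List ℕ) (hw : ∀ x ∈ w, x ≤ m + 1) :
    mk (m + 1) S w = ftf (mk m S w) := by
  induction w generalizing S with
  | nil => rfl
  | cons x w ih =>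
    obtain ⟨h1, h2, h3⟩ := spot_spec S x
    have hx : x ≤ m + 1 := hw x List.mem_cons_self
    have hle : spot S x ≤ m + 1 := h3 _ hx h
    by_cases h4 : spot S x = m + 1
    · have h5 := mk_succ_of_mem (S := insert (spot S x) S) (m := m)
        (by rw [h4]; exact Finset.mem_insert_self _ _) w
      unfold mk at h5 ⊢
      rw [pk, List.map_cons, List.map_cons, h5, h4]
      simp [ftf]
    · have h5 := ih (S := insert (spot S x) S) (by
        rw [Finset.mem_insert, not_or]
        exact ⟨fun h6 => h4 h6.symm, h⟩) fun y hy => hw y (List.mem_cons_of_mem _ hy)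
      unfold mk at h5 ⊢
      rw [pk, List.map_cons, List.map_cons, h5]
      have h6 : decide (m + 1 < spot S x) = false := by simp; omega
      have h7 : decide (m < spot S x) = false := by simp; omega
      rw [h6, h7, ftf]

lemma mk_append (m : ℕ) (S : Finset ℕ) (v w : List ℕ) :
    mk m S (v ++ w) = mk m S v ++ mk m (oc S v) w := by
  simp [mk, pk_append]

/-- Insertion of the pair of the next letter. -/
lemma mk_ins (m : ℕ) (v w : List ℕ) (hv : ∀ x ∈ v, x ≤ m) (hw : ∀ x ∈ w, x ≤ m) :
    mk (m + 1) ∅ (v ++ (m + 1) :: (m + 1) :: w) =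
      ftf (mk m ∅ v ++ true :: true :: mk m (oc ∅ v) w) := by
  rw [mk_succ (Finset.notMem_empty _), mk_append]
  · congr 2
    have h1 : ∀ (S : Finset ℕ) (l : List ℕ), mk m S ((m + 1) :: l) =
        true :: mk m (insert (spot S (m + 1)) S) l := by
      intro S l
      unfold mk
      rw [pk, List.map_cons]
      have := (spot_spec S (m + 1)).1
      have h2 : decide (m < spot S (m + 1)) = true := by simp; omega
      rw [h2]
    rw [h1, h1]
    congr 2
    apply mk_eqm
    intro y hy
    rw [eqm_big _ (Nat.lt_succ_self m) y hy, eqm_big _ (Nat.lt_succ_self m) y hy]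
  · intro x hx
    simp only [List.mem_append, List.mem_cons] at hx
    rcases hx with h | rfl | rfl | h
    · exact (hv x h).trans (Nat.le_succ _)
    · exact le_refl _
    · exact le_refl _
    · exact (hw x h).trans (Nat.le_succ _)

/-- The spot `m + 1` is occupied iff a car is marked. -/
lemma oc_succ {m : ℕ} (w : List ℕ) (hw : ∀ x ∈ w, x ≤ m + 1) (S : Finset ℕ) :
    m + 1 ∈ oc S w ↔ m + 1 ∈ S ∨ true ∈ mk m S w := by
  induction w generalizing S with
  | nil => simp [oc, mk, pk]
  | cons x w ih =>
    have h0 := ih (fun y hy => hw y (List.mem_cons_of_mem _ hy)) (insert (spot S x) S)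
    rw [oc, h0, Finset.mem_insert]
    obtain ⟨h1, h2, h3⟩ := spot_spec S x
    have hx : x ≤ m + 1 := hw x List.mem_cons_self
    have h4 : true ∈ mk m S (x :: w) ↔ m < spot S x ∨ true ∈ mk m (insert (spot S x) S) w := by
      unfold mk
      rw [pk, List.map_cons, List.mem_cons]
      constructor
      · rintro (h | h)
        · left; simpa using h.symm
        · right; exact h
      · rintro (h | h)
        · left; simp [h]
        · right; exact h
    rw [h4]
    by_cases h : m + 1 ∈ S
    · simp [h]
    · have h5 : spot S x ≤ m + 1 := h3 _ hx h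
      constructor
      · rintro ((h6 | h6) | h6)
        · right; left; omega
        · exact absurd h6 h
        · right; right; exact h6
      · rintro (h6 | h6 | h6)
        · exact absurd h6 h
        · left; left; omega
        · right; exact h6

/-- The number of lucky cars after the insertion of the pair of the next letter. -/
lemma lucky_ins (m : ℕ) (v w : List ℕ) (hv : ∀ x ∈ v, x ≤ m) (hw : ∀ x ∈ w, x ≤ m) :
    lucky (v ++ (m + 1) :: (m + 1) :: w) =
      lucky (v ++ w) + if true ∈ mk m ∅ v then 0 else 1 := by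
  unfold lucky
  rw [dis_append, dis_append, List.count_append, List.count_append, dis, dis, List.count_cons,
    List.count_cons]
  have h1 : (dis (insert (spot (insert (spot (oc ∅ v) (m + 1)) (oc ∅ v)) (m + 1))
      (insert (spot (oc ∅ v) (m + 1)) (oc ∅ v))) w).count 0 = (dis (oc ∅ v) w).count 0 := by
    apply dis_eqm (m := m) _ w hw
    intro y hy
    rw [eqm_big _ (Nat.lt_succ_self m) y hy, eqm_big _ (Nat.lt_succ_self m) y hy]
  rw [h1]
  set S := oc ∅ v with hS
  have h2 : m + 1 ∈ S ↔ true ∈ mk m ∅ v := by
    have := oc_succ (m := m) v (fun x hx => (hv x hx).trans (Nat.le_succ _)) ∅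
    rw [this]
    simp
  have h3 : m + 1 ∈ insert (spot S (m + 1)) S := by
    rw [Finset.mem_insert]
    by_cases h : m + 1 ∈ S
    · exact Or.inr h
    · left
      obtain ⟨h4, h5, h6⟩ := spot_spec S (m + 1)
      exact le_antisymm h4 (h6 _ (le_refl _) h)
  have h4 : (spot (insert (spot S (m + 1)) S) (m + 1) - (m + 1) == 0) = false := by
    rw [beq_eq_false_iff_ne]
    obtain ⟨h4, h5, h6⟩ := spot_spec (insert (spot S (m + 1)) S) (m + 1)
    intro h7
    apply h5
    have : spot (insert (spot S (m + 1)) S) (m + 1) = m + 1 := by omega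
    rw [this]
    exact h3
  have h5 : (spot S (m + 1) - (m + 1) == 0) = decide (m + 1 ∉ S) := by
    obtain ⟨h4, h5, h6⟩ := spot_spec S (m + 1)
    by_cases h : m + 1 ∈ S
    · have h7 : decide (m + 1 ∉ S) = false := by simpa using h
      rw [h7, beq_eq_false_iff_ne]
      intro h8
      have : spot S (m + 1) = m + 1 := by omega
      rw [this] at h5
      exact h5 h
    · have h7 : decide (m + 1 ∉ S) = true := by simpa using h
      have h8 := h6 _ (le_refl _) h
      rw [h7, beq_iff_eq]
      omega
  rw [h4, h5]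
  by_cases h : m + 1 ∈ S
  · simp [h, h2.1 h]
  · have h6 : ¬ true ∈ mk m ∅ v := fun h7 => h (h2.2 h7)
    simp [h, h6]
    omega

end Pool.Agent.LuckyStirling
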